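import Pool.Agent.WittPrimes.Theta

/-!
# Words in the Witt basis span the enveloping algebras
-/

namespace PRI64

open Pool.WittPrimes

attribute [local instance 100] LieRing.ofAssociativeRing

/-- the word `g l₁ * g l₂ * ...` -/
def wrd {A : Type*} [Monoid A] (g : ℤ → A) (l : List ℤ) : A := (l.map g).prod

theorem wrd_append {A : Type*} [Monoid A] (g : ℤ → A) (l l' : List ℤ) :
    wrd g (l ++ l') = wrd g l * wrd g l' := by
  simp [wrd]

/-- the span of the words, as a subalgebra -/
def wordAlg (k : Type*) {A : Type*} [Field k] [Ring A] [Algebra k A] (g : ℤ → A) :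
    Subalgebra k A where
  carrier := Submodule.span k (Set.range (wrd g))
  mul_mem' := by
    intro a b ha hb
    simp only [SetLike.mem_coe] at ha hb ⊢
    have h := Submodule.mul_mem_mul ha hb
    rw [Submodule.span_mul_span] at h
    refine Submodule.span_mono ?_ h
    rintro _ ⟨_, ⟨l, rfl⟩, _, ⟨l', rfl⟩, rfl⟩
    exact ⟨l ++ l', wrd_append g l l'⟩
  add_mem' := by
    intro a b ha hb
    exact Submodule.add_mem _ ha hb
  algebraMap_mem' := by
    intro r
    rw [Algebra.algebraMap_eq_smul_one]
    exact Submodule.smul_mem _ r (Submodule.subset_span ⟨[], by simp [wrd]⟩)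

theorem mem_wordAlg {k A : Type*} [Field k] [Ring A] [Algebra k A] {g : ℤ → A} {a : A} :
    a ∈ wordAlg k g ↔ a ∈ Submodule.span k (Set.range (wrd g)) := Iff.rfl

theorem gen_mem {k A : Type*} [Field k] [Ring A] [Algebra k A] (g : ℤ → A) (n : ℤ) :
    g n ∈ wordAlg k g :=
  Submodule.subset_span ⟨[n], by simp [wrd]⟩

variable {k L : Type*} [Field k] [LieRing L] [LieAlgebra k L]

theorem wrd_L (D : WittData k L) :
    Submodule.span k (Set.range (wrd fun n => UniversalEnvelopingAlgebra.ι k (D.b n))) = ⊤ := by
  rw [eq_top_iff]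
  intro u _
  rw [← mem_wordAlg]
  refine UEA_induction _ ?_ u
  intro x
  have hx : x ∈ Submodule.span k (Set.range D.b) := by
    rw [D.b.span_eq]; trivial
  induction hx using Submodule.span_induction with
  | mem x h =>
    obtain ⟨n, rfl⟩ := h
    exact gen_mem (fun n => UniversalEnvelopingAlgebra.ι k (D.b n)) n
  | zero => rw [map_zero]; exact Subalgebra.zero_mem _
  | add x y _ _ h1 h2 => rw [map_add]; exact Subalgebra.add_mem _ h1 h2
  | smul a x _ h => rw [map_smul]; exact Subalgebra.smul_mem _ h a

theorem wrd_S (D : WittData k L) (S : LieSubalgebra k L)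
    (hS : S.toSubmodule = Submodule.span k (D.b '' {n | -1 ≤ n})) :
    Submodule.span k (Set.range (wrd (eS D S hS))) = ⊤ := by
  rw [eq_top_iff]
  intro u _
  rw [← mem_wordAlg]
  exact eS_induction D S hS _ (fun n _ => gen_mem _ n) u

end PRI64
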